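import Pool.Agent.N174.Cyc.Twr

/-!
# Lefschetz theorems for the Tate conjecture: hyperplane sections, double and cyclic coverings

Let `f : X ⟶ Y` be a morphism of smooth projective varieties over a finitely generated field, and
let `E` be its vanishing cohomology (the kernel of the push-forward). The Tate conjecture for
`Y ^ (n + 1) × Z` implies the Tate conjecture for `X ^ (n + 1) × Z`, in all codimensions, in each of
the following two cases.

1. (`LefschetzType`) `E` is in the middle degree and irreducible under all subgroups of finite index
of the Galois group (or monodromy group) `Γ`, and some `g ∈ Γ` acts trivially on the cohomology of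
`Y` and of `Z`, and by a Picard-Lefschetz formula on `E`. If the dimension of `X` is even,
`n + 1 < dim E`. This is the case for the generic member `X` of a Lefschetz pencil of sections of
`Y` by a sufficiently ample divisor, and for double coverings of `Y` with a node.

2. (`CyclicStep`) `f` is a cyclic covering of odd degree `d` with the automorphism `σ`. Here `E` is
never irreducible over a field of coefficients with a primitive `d`-th root of unity: it is the sum
of the parts `E_c` with `σ^* = c`, and `E_c` is dual to the part of `c⁻¹`. It is assumed that
the `E_c` are irreducible under all subgroups of finite index, of dimension greater than `n + 1`,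
and that some `g ∈ Γ` acts trivially on the cohomology of `Y` and of `Z`, and by the
Picard-Lefschetz formula of a cyclic covering on `E`. Then `g` acts on the `E_c` as complex
reflections with different eigenvalues, the algebraic monodromy group of `E` contains
the product of the groups `SL (E_c)` over the pairs `c`, `c⁻¹`, and the Tate classes are given by
the first fundamental theorem for the general linear groups.

The theorem can be iterated: `X` may be the top of a tower of such morphisms over `Y`, in any
order. Nothing is assumed on the cohomology of `Y` and `Z` (which is in general far from being
algebraic), and no standard conjecture is used.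
-/

open CategoryTheory AlgebraicGeometry Pool.Agent.H914 Pool.Agent.TH125.Gal Pool.Agent.N174.Cyc

universe u v w

namespace Pool.Agent.Results.MP_0fca13_ag.MixedTowers

/-- **The Lefschetz theorem for the Tate conjecture.** -/
theorem result {k : Type u} [Field k] {𝒱 : VarClass k} {ops : CycleOps 𝒱}
    {W : WeilCohomology.{u, v} ops} {Γ : Type w} [Group Γ] {χ : Γ →* W.Kˣ}
    {X Y Z V V' : GVar W Γ} {n : ℕ} (hY : IsGaloisVar χ Y) (hZ : IsGaloisVar χ Z)
    (h : MixedTower χ Z (n + 1) Y X) (hYZ : IsPowProd Y n Z V') (hT : TateConjecture χ V')
    (hXZ : IsPowProd X n Z V) : TateConjecture χ V :=
  tate_mixed hY hZ h hYZ hT hXZ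

end Pool.Agent.Results.MP_0fca13_ag.MixedTowers
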